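import Pool.Graph.R_seed8.X239.ENC

/-!
# Even-nearly conservative arc weights on symmetric, almost bipartite digraphs with a sparse side

The library's reduction from the Hamiltonian cycle problem subdivides all edges of a graph. Here it
is shown that the digraph obtained is sparse on one side: after removing one pair of opposite arcs
it is bipartite, all weights are `-1`, and the vertices of one of the two classes have at most three
neighbours.
-/

namespace Pool.Agent.Results.MP_d994ca_lc.DegreeThreeSide

open Pool.Agent.NPC Pool.Agent.X239.ENC Pool.Agent.H679R2 Pool.Agent.NPC.H679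

/-- All arcs have weight `-1` and join the two classes of a bipartition `X` of the vertices, except
one arc `(s, t)` and its opposite `(t, s)`, whose weight is a natural number less than twice the
number of vertices and which join vertices of the class `X = true`; and every vertex of the class
`X = false` has at most three out-neighbours. -/
def SparseSide (D : WDigraph) : Prop :=
  ∃ (s t N : ℕ) (X : ℕ → Bool), N < 2 * D.1.length ∧ (s, t, (N : ℚ)) ∈ D.2 ∧
    X s = true ∧ X t = true ∧
    (∀ u v c, (u, v, c) ∈ D.2 → (u = s ∧ v = t) ∨ (u = t ∧ v = s) ∨ (X u ≠ X v ∧ c = -1)) ∧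
    ∀ u, X u = false → {v | ∃ c, (u, v, c) ∈ D.2}.encard ≤ 3

theorem red_sparse (I : List ℕ × List (ℕ × ℕ)) : SparseSide (red I) := by
  by_cases hI : I.1 = []
  · unfold Pool.Agent.X239.ENC.red
    rw [if_pos hI]
    refine ⟨0, 1, 0, fun _ => true, by simp, by simp, rfl, rfl, ?_, fun u h => by simp at h⟩
    intro u v c h
    simp only [List.mem_cons, Prod.mk.injEq, List.not_mem_nil, or_false] at h
    tauto
  · obtain ⟨s, l, hl⟩ := List.exists_cons_of_ne_nil hI
    have hs : s ∈ I.1 := by rw [hl]; simp
    have hhd : I.1.head?.getD 0 = s := by rw [hl]; rfl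
    unfold Pool.Agent.X239.ENC.red
    rw [if_neg hI, hhd]
    set N := 2 * I.1.dedup.length - 1 with hN
    refine ⟨2 * s + 2, 0, N, fun u => decide (u % 2 = 0), ?_, ?_, ?_, ?_, ?_, ?_⟩
    · have : (verts I).length = I.1.dedup.length +
          ((nb I).map (fun p => ec p.1 p.2)).dedup.length + 1 := by
        simp [verts]
      simp only
      omega
    · exact (mem_arcs hs _ _ _).2 (Or.inr (Or.inr ⟨rfl, Or.inl ⟨rfl, rfl⟩⟩))
    · simp only [decide_eq_true_eq]
      omega
    · simp
    · intro u v c h
      simp only at h
      rcases (mem_arcs hs u v c).1 h with ⟨h1, h3, h4⟩ | ⟨h1, h3, h4⟩ | ⟨h1, h3⟩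
      · have := h3.even
        have := h4.odd
        refine Or.inr (Or.inr ⟨?_, h1⟩)
        rw [Ne, decide_eq_decide]
        omega
      · have := h3.even
        have := h4.odd
        refine Or.inr (Or.inr ⟨?_, h1⟩)
        rw [Ne, decide_eq_decide]
        omega
      · rcases h3 with h3 | h3
        · exact Or.inl h3
        · exact Or.inr (Or.inl h3)
    · intro u hu
      have hodd : u % 2 = 1 := by
        have : ¬ u % 2 = 0 := by simpa using hu
        omega
      have key : ∀ v c, (u, v, c) ∈ arcs I s N → IsV I v ∧ Inc I u (pr s v) := by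
        intro v c h
        rcases (mem_arcs hs u v c).1 h with ⟨h1, h3, h4⟩ | ⟨h1, h3, h4⟩ | ⟨h1, h3⟩
        · have := h3.even
          omega
        · exact ⟨h3, h4⟩
        · omega
      by_cases hex : ∃ v c, (u, v, c) ∈ arcs I s N
      · obtain ⟨v0, c0, h0⟩ := hex
        obtain ⟨-, -, b0, -, -, he0⟩ := key v0 c0 h0
        have hsub : {v | ∃ c, (u, v, c) ∈ arcs I s N} ⊆
            ({0, 2 * pr s v0 + 2, 2 * b0 + 2} : Set ℕ) := by
          rintro v ⟨c, hc⟩
          obtain ⟨hv, -, b, -, -, he⟩ := key v c hc
          have hp : v = 0 ∨ v = 2 * pr s v + 2 := by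
            rcases hv with rfl | ⟨a, -, rfl⟩
            · exact Or.inl rfl
            · right
              unfold pr
              rw [if_neg (by omega)]
              omega
          rcases ec_inj (he0.symm.trans he) with ⟨h1, -⟩ | ⟨-, h1⟩
          · rw [← h1] at hp
            rcases hp with h | h
            · exact Or.inl h
            · exact Or.inr (Or.inl h)
          · rw [← h1] at hp
            rcases hp with h | h
            · exact Or.inl h
            · exact Or.inr (Or.inr h)
        refine (Set.encard_le_encard hsub).trans ?_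
        refine (Set.encard_insert_le _ _).trans ?_
        have h2 : ({2 * pr s v0 + 2, 2 * b0 + 2} : Set ℕ).encard ≤ 2 := by
          refine (Set.encard_insert_le _ _).trans ?_
          rw [Set.encard_singleton]
          norm_num
        calc ({2 * pr s v0 + 2, 2 * b0 + 2} : Set ℕ).encard + 1 ≤ 2 + 1 := by gcongr
          _ = 3 := by norm_num
      · have : {v | ∃ c, (u, v, c) ∈ arcs I s N} = ∅ := by
          ext v
          simp only [Set.mem_ofPred_eq, Set.mem_empty_iff_false, iff_false]
          exact fun ⟨c, hc⟩ => hex ⟨v, c, hc⟩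
        show {v | ∃ c, (u, v, c) ∈ arcs I s N}.encard ≤ 3
        rw [this]
        simp

/-- Reduction from any language in `coNP`. -/
theorem hard' (L : Set (List Bool)) (hL : InCoNP L) :
    ∃ f : List Bool → List Bool, PolyTime f ∧ ∀ x, ∃ D : WDigraph, f x = bits D ∧
      WellFormed D ∧ SymmetricWeights D ∧ SparseSide D ∧
      (x ∈ L ↔ EvenNearlyConservative D) := by
  obtain ⟨f, hf, hfL⟩ := (hardPr_ham 6 le_rfl) Lᶜ hL
  refine ⟨fun x => bits (red (f x)), PC.toPolyTime_bits poly_red f hf, fun x =>
    ⟨red (f x), rfl, (red_wf _).1, (red_wf _).2.1, red_sparse _, ?_⟩⟩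
  have h1 := hfL.2 x
  rw [Set.mem_compl_iff, red_iff] at h1
  tauto

/-- Every language in `coNP` is reduced in polynomial time to the recognition of even-nearly
conservative weights by a function all of whose values are well-formed symmetric digraphs with
symmetric weights and `SparseSide`. Consequently, if some polynomial-time algorithm recognises
even-nearly conservative weights on such digraphs, then `P = NP`. -/
theorem result :
    (∀ L : Set (List Bool), InCoNP L → ∃ f : List Bool → List Bool, PolyTime f ∧
      ∀ x, ∃ D : WDigraph, f x = bits D ∧ WellFormed D ∧ SymmetricWeights D ∧ SparseSide D ∧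
        (x ∈ L ↔ EvenNearlyConservative D)) ∧
    ((∃ V : List Bool → List Bool, PolyTime V ∧ ∀ D : WDigraph,
        WellFormed D → SymmetricWeights D → SparseSide D →
          (V (bits D) = [true] ↔ EvenNearlyConservative D)) →
      ∀ L : Set (List Bool), InNP L → InP L) := by
  refine ⟨hard', ?_⟩
  rintro ⟨V, hV, h⟩ L hL
  have hL' : InCoNP Lᶜ := by
    unfold InCoNP
    rw [compl_compl]
    exact hL
  obtain ⟨f, hf, hfL⟩ := hard' Lᶜ hL'
  have h1 : PolyTime (fun x => V (f x)) := Pool.Agent.H642R2.TMSim.polyTime_comp hV hf
  refine ⟨fun x => [!decide (V (f x) = [true])], polyTime_test (g := fun y => !decide (y = [true]))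
    h1 (NPC.Poly.not (NPC.Poly.decide_eq NPC.Poly.id
      (NPC.Poly.const _))), fun x => ?_⟩
  obtain ⟨D, hD, h2, h3, h4, h5⟩ := hfL x
  have h6 := h D h2 h3 h4
  rw [← hD] at h6
  rw [Set.mem_compl_iff] at h5
  have h7 : ([!decide (V (f x) = [true])] = [true]) ↔ ¬ (V (f x) = [true]) := by simp
  rw [h7, h6, ← h5, not_not]

end Pool.Agent.Results.MP_d994ca_lc.DegreeThreeSide
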